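import Pool.Agent.K4H49.IR.Main
import Pool.Agent.K4H49.IR.All

/-!
# Infinitely many `K_{1,n}`-irregular and `K_n`-irregular graphs

For a graph `F` the `F`-degree of a vertex `x` of a graph `G` is the number of the subgraphs of `G`
which are isomorphic to `F` and contain `x`; `G` is `F`-irregular if its vertices have pairwise
distinct `F`-degrees. We show, for every `n ≥ 2`, that there are infinitely many `K_{1,n}`-irregular
graphs (one of every odd order `≥ 2 n + 3`), and for every `n ≥ 3` infinitely many `K_n`-irregular
graphs (one of each of the orders `5 n + 2, 5 n + 4, …`). This answers both questions of the problem.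

Stars: on the vertices `0, 1, …, 2 m` join `i ≠ j` if `i + j > 2 m`, and join `0` with `m + 1` (the
connected antiregular graph, with one pendant edge at one of the two vertices of the same degree).
The `K_{1,n}`-degree is strictly increasing in `i` if `m ≥ n + 1`.

Cliques: a clique `{0, …, M - 1}` and independent vertices `v_d`, `d = n - 1, …, M`, of degree `d`;
`v_d` is joined with `0, …, d - 1`, except that for `n ≤ d ≤ n + h`, `h ≤ n - 3`, its neighbour `h`
is replaced by `M - 1 - h`. (The first `n - 1` vertices have to be distinguished.)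
-/

set_option autoImplicit false

namespace Pool.Agent.K4H49.Retired.StarsAndCliques

/-- The `F`-degree of the vertex `x` of `G`: the number of the subgraphs of `G` (not necessarily
induced) which are isomorphic to `F` and contain `x`. -/
noncomputable def degree {V W : Type} (F : SimpleGraph W) (G : SimpleGraph V) (x : V) : ℕ :=
  {H : G.Subgraph | x ∈ H.verts ∧ Nonempty (F ≃g H.coe)}.ncard

/-- `G` is `F`-irregular: its vertices have pairwise distinct `F`-degrees. -/
def IsIrregular {V W : Type} (F : SimpleGraph W) (G : SimpleGraph V) : Prop :=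
  ∀ x y : V, degree F G x = degree F G y → x = y

/-- There are infinitely many pairwise non-isomorphic finite `F`-irregular graphs; the `i`-th one
has `order i` vertices. -/
def InfinitelyMany {W : Type} (F : SimpleGraph W) (order : ℕ → ℕ) : Prop :=
  ∃ (V : ℕ → Type) (_ : ∀ i, Fintype (V i)) (G : ∀ i, SimpleGraph (V i)),
    (∀ i, Fintype.card (V i) = order i) ∧ (∀ i, IsIrregular F (G i)) ∧
    ∀ i j, i ≠ j → IsEmpty (G i ≃g G j)

/-- **Answer to Q1 and Q2.** For every `n ≥ 2` there are infinitely many `K_{1,n}`-irregular graphs,
and for every `n ≥ 3` there are infinitely many `K_n`-irregular graphs. -/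
theorem result :
    (∀ n : ℕ, 2 ≤ n →
      InfinitelyMany (completeBipartiteGraph (Fin 1) (Fin n)) fun i => 2 * n + 3 + 2 * i) ∧
    (∀ n : ℕ, 3 ≤ n → InfinitelyMany (⊤ : SimpleGraph (Fin n)) fun i => 5 * n + 2 + 2 * i) := by
  refine ⟨fun n hn => ?_, fun n hn => ?_⟩
  · refine ⟨fun i => Fin (2 * (n + 1 + i) + 1), fun i => inferInstance,
      fun i => K4H49.IR.A (n + 1 + i), fun i => ?_, fun i x y h => ?_, fun i j hij => ⟨fun e => ?_⟩⟩
    · rw [Fintype.card_fin]
      ring
    · exact K4H49.IR.star_main K4H49.IR.star_count K4H49.IR.mono n (n + 1 + i) hn (by omega) h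
    · have := Fintype.card_congr e.toEquiv
      rw [Fintype.card_fin, Fintype.card_fin] at this
      omega
  · refine ⟨fun i => Fin (3 * n + i) ⊕ Fin (3 * n + i + 2 - n), fun i => inferInstance,
      fun i => K4H49.IR.split (K4H49.IR.Nf n (3 * n + i)), fun i => ?_, fun i x y h => ?_,
      fun i j hij => ⟨fun e => ?_⟩⟩
    · rw [Fintype.card_sum, Fintype.card_fin, Fintype.card_fin]
      show 3 * n + i + (3 * n + i + 2 - n) = 5 * n + 2 + 2 * i
      omega
    · exact K4H49.IR.clique_main K4H49.IR.clq_count K4H49.IR.spl1 K4H49.IR.spl2 K4H49.IR.card_Nf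
        K4H49.IR.sum_Nf K4H49.IR.inj n (3 * n + i) hn (by omega) h
    · have := Fintype.card_congr e.toEquiv
      rw [Fintype.card_sum, Fintype.card_fin, Fintype.card_fin, Fintype.card_sum, Fintype.card_fin,
        Fintype.card_fin] at this
      omega

end Pool.Agent.K4H49.Retired.StarsAndCliques
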